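import Mathlib
import Pool.Agent.MP02bc1b.Core

/-!
# Triangle-free `C₄`-saturated graphs of every large order (MP_02bc1b_co)

The proof is in `Pool.Agent.MP02bc1b.Core`.  Let `F` be a field with `q = 2 ^ k` elements and
`χ : F → {1, -1}` a nontrivial additive character.  The graph on `{(x, y) ∈ F² : χ x = -1}` in which
`u ~ v` if and only if `det (u, v) = 1` has no triangle and no `4`-cycle, and any two non-adjacent
vertices are joined by at least `q / 8` paths of length `3` (fourth moment of Kloosterman sums).
A random colouring of `F²` with four colours then gives a set of at most a quarter of the vertices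
that contains the interior of such a path for all pairs, so every set of vertices
containing it induces a triangle-free `C₄`-saturated graph.
-/

set_option autoImplicit false

namespace Pool.Agent.Results.MP_02bc1b_co.TriangleFree

/-- `G` is `H`-saturated: `G` contains no copy of `H`, but joining any two distinct non-adjacent
vertices creates a copy of `H`. -/
def Saturated {W V : Type} (H : SimpleGraph W) (G : SimpleGraph V) : Prop :=
  ¬ H.IsContained G ∧
    ∀ u v : V, u ≠ v → ¬ G.Adj u v → H.IsContained (G ⊔ SimpleGraph.edge u v)

/-- The negated form of Q1: for all large `n` there is a triangle-free `C₄`-saturated graph on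
`n` vertices, that is, `sat(n, K₃, C₄) = 0`. -/
theorem result : ∃ n₀ : ℕ, ∀ n ≥ n₀, ∃ G : SimpleGraph (Fin n),
    Saturated (SimpleGraph.cycleGraph 4) G ∧ G.CliqueFree 3 :=
  MP02bc1b.Core.main

end Pool.Agent.Results.MP_02bc1b_co.TriangleFree
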